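import Pool.Agent.Lib.MP_021685_agTK.KD

/-! Definitions used in the statement of `MP_021685_ag.AlmostAll` (the varieties whose Frobenius eigenvalues have small degree or a
splitting field without Frobenius eigenvalue of the abelian variety). -/

namespace TL

open Polynomial

/-- `ρ` is a root of a non-zero rational polynomial `f` such that either `f` has degree less than `n`, or the splitting field
of `f` in `ℂ` contains no root of `P`. -/
def Foreign (P : ℤ[X]) (n : ℕ) (ρ : ℂ) : Prop :=
  ∃ f : ℚ[X], f ≠ 0 ∧ aeval ρ f = 0 ∧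
    (f.natDegree < n ∨ ∀ z : ℂ, aeval z P = 0 → z ∉ IntermediateField.adjoin ℚ (f.rootSet ℂ))

/-- A power `y ^ N`, `N > 0`, is a product of numbers `ρ` with `Foreign P n ρ`. -/
def Small (P : ℤ[X]) (n : ℕ) (y : ℂ) : Prop :=
  ∃ N : ℕ, 0 < N ∧ y ^ N ∈ Submonoid.closure {ρ : ℂ | Foreign P n ρ}

/-- For every semisimple operator `F` on `V` with characteristic polynomial `P`, every extension degree `d > 0`, every
operator `G` on a space `W` all of whose eigenvalues are roots of products of numbers `ρ` with `Foreign P n ρ`, all `k` and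
`b`: all Tate forms on `V^k × W` over the extension of degree `d` (total weight `k + b`) are linear combinations of products of
Tate pairings on `V` and one Tate form on `W`. -/
def FullOver (q : ℕ) (P : ℤ[X]) (n : ℕ) : Prop :=
  ∀ (V W : Type) [AddCommGroup V] [Module ℂ V] [FiniteDimensional ℂ V] [AddCommGroup W] [Module ℂ W]
    [FiniteDimensional ℂ W] (F : V →ₗ[ℂ] V) (G : W →ₗ[ℂ] W),
    Module.End.IsSemisimple F → F.charpoly = P.map (Int.castRingHom ℂ) →
      (∀ y, Module.End.HasEigenvalue G y → Small P n y) →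
        ∀ d k b : ℕ, 0 < d → ∀ T : MultilinearMap ℂ (fun _ : Fin k => V) (W →ₗ[ℂ] ℂ),
          (∀ v w, T (fun a => (F ^ d) (v a)) (G w) = ((Real.sqrt q : ℝ) : ℂ) ^ (d * (k + b)) * T v w) →
            T ∈ Submodule.span ℂ {T' : MultilinearMap ℂ (fun _ : Fin k => V) (W →ₗ[ℂ] ℂ) |
              TK.IsProdOver q d k b F G T'}

end TL
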