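import Pool.Agent.Lib.MP_021685_agTK.K5
import Pool.Agent.Lib.MP_021685_agTK.KN

/-! T-DISJ+: an automorphism which fixes the conjugates of `u` fixes `z x` for every `x` in the support of `u`. -/

namespace TK

variable {F : Type} [Field F] [Algebra ℚ F] [FiniteDimensional ℚ F] {q g : ℕ} {I : Type} [Fintype I]
  (S : SP q g F I)

open Classical in
theorem SP.mem_supp' (u : F) (x : I) (h : S.e x u ^ 2 ≠ 1) : x ∈ S.supp u := by
  unfold SP.supp
  exact Finset.mem_filter.2 ⟨Finset.mem_univ _, h⟩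

omit [Fintype I] in
open Classical in
theorem of_mem_orb (u v : F) (hv : v ∈ orb u) : ∃ δ : F ≃ₐ[ℚ] F, δ u = v := by
  unfold orb at hv
  obtain ⟨δ, -, h⟩ := Finset.mem_image.1 hv
  exact ⟨δ, h⟩

/-- An automorphism which fixes all the conjugates of `u` fixes `z x` for every `x` in the support of `u`. -/
theorem SP.fix (hq : 0 < q) (u : F) (hu : u ≠ 0) (x : I) (hx : x ∈ S.supp u) (γ : F ≃ₐ[ℚ] F)
    (hγ : ∀ v ∈ orb u, γ v = v) : γ (S.z x) = S.z x := by
  classical
  have hq0 : (q : F) ≠ 0 := by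
    have : CharZero F := algebraRat.charZero F
    exact_mod_cast hq.ne'
  have hne : S.e x u ^ 2 ≠ 1 := by
    unfold SP.supp at hx
    exact (Finset.mem_filter.1 hx).2
  have h0 := S.e_ne x u hu
  have hinv : ∀ a : F, a ≠ 0 → a = a⁻¹ → a ^ 2 = 1 := by
    intro a ha h
    calc a ^ 2 = a * a := sq a
      _ = a⁻¹ * a := by rw [← h]
      _ = 1 := inv_mul_cancel₀ ha
  have hu1 : γ u = u := hγ u (Finset.mem_image.2 ⟨AlgEquiv.refl, Finset.mem_univ _, rfl⟩)
  have hu2 : γ (S.s x u) = S.s x u := hγ _ (Finset.mem_image.2 ⟨S.s x, Finset.mem_univ _, rfl⟩)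
  obtain ⟨y, hy⟩ := S.perm γ x
  by_cases hxy : y = x
  · rw [hxy] at hy
    rcases hy with hy | hy
    · exact hy
    · exfalso
      have h1 : S.e x (γ u) = (S.e x u)⁻¹ := ee_flip q hq0 γ (S.z x) u (S.ne x) hy
      rw [hu1] at h1
      exact hne (hinv _ h0 h1)
  · exfalso
    have h1 := S.e_perm hq γ x y hy u
    have h2 := S.e_perm hq γ x y hy (S.s x u)
    rw [hu1] at h1
    rw [hu2, S.e_flip hq x u, S.e_fix y x hxy u, map_inv₀, ← h1] at h2
    have h3 := hinv _ (S.e_ne y u hu) h2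
    rw [h1, ← map_pow] at h3
    exact hne (γ.injective (h3.trans (map_one γ).symm))

omit [Fintype I] in
/-- The elements with `e x u ^ 2 = 1` for all `x` are closed under products. -/
theorem SP.e_closure' (c : F) (hc : c ∈ Submonoid.closure {u : F | u ≠ 0 → ∀ x, S.e x u ^ 2 = 1})
    (hc0 : c ≠ 0) (x : I) : S.e x c ^ 2 = 1 := by
  classical
  induction hc using Submonoid.closure_induction with
  | mem c h => exact h hc0 x
  | one => rw [S.e_one, one_pow]
  | mul a b _ _ iha ihb =>
    rw [S.e_mul, mul_pow, iha (left_ne_zero_of_mul hc0), ihb (right_ne_zero_of_mul hc0), one_mul]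

open Polynomial in
/-- A root of a polynomial of degree less than `2 g`, or whose splitting field contains no `z x`, has support zero. -/
theorem SP.foreign [Normal ℚ F] (φ : F →+* ℂ) (hq : 0 < q) (u : F) (hu : u ≠ 0) (f : ℚ[X]) (hf : f ≠ 0)
    (hfu : aeval u f = 0)
    (h : f.natDegree < 2 * g ∨ ∀ x : I, φ (S.z x) ∉ IntermediateField.adjoin ℚ (f.rootSet ℂ)) (x : I) :
    S.e x u ^ 2 = 1 := by
  by_contra hne
  have hx : x ∈ S.supp u := S.mem_supp' u x hne
  rcases h with h | h
  · exact absurd (S.large hq u hu x hx) (not_le.2 (orb_small u f hf (2 * g) h hfu))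
  · apply h x
    have hroot : ∀ v ∈ orb u, v ∈ f.rootSet F := by
      intro v hv
      obtain ⟨δ, rfl⟩ := of_mem_orb u v hv
      rw [mem_rootSet]
      refine ⟨hf, ?_⟩
      have h2 : aeval (δ u) f = δ (aeval u f) := Polynomial.aeval_algHom_apply δ u f
      rw [h2, hfu, map_zero]
    have hgal : IsGalois ℚ F := IsGalois.mk
    have hmem : S.z x ∈ IntermediateField.adjoin ℚ (f.rootSet F) := by
      rw [← IsGalois.fixedField_fixingSubgroup (IntermediateField.adjoin ℚ (f.rootSet F))]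
      rw [IntermediateField.mem_fixedField_iff]
      intro γ hγ
      refine S.fix hq u hu x hx γ fun v hv => ?_
      rw [IntermediateField.mem_fixingSubgroup_iff] at hγ
      exact hγ v (IntermediateField.subset_adjoin ℚ _ (hroot v hv))
    have hmap : φ.toRatAlgHom (S.z x) ∈ (IntermediateField.adjoin ℚ (f.rootSet F)).map φ.toRatAlgHom :=
      ⟨S.z x, hmem, rfl⟩
    rw [IntermediateField.adjoin_map] at hmap
    refine IntermediateField.adjoin.mono ℚ _ _ ?_ hmap
    rintro _ ⟨v, hv, rfl⟩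
    rw [mem_rootSet] at hv ⊢
    refine ⟨hf, ?_⟩
    have h2 : aeval (φ.toRatAlgHom v) f = φ.toRatAlgHom (aeval v f) := Polynomial.aeval_algHom_apply φ.toRatAlgHom v f
    rw [h2, hv.2, map_zero]

end TK
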