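import Pool.Agent.Lib.MP_021685_agTL.L1

/-! T-DISJ+: the balance (copy of K6 for the products of all elements with support zero). -/

namespace TK

open Classical in
/-- The balance: as `SP.balance`, for products of elements with support zero. -/
theorem SP.balance' {F : Type} [Field F] [Algebra ℚ F] [FiniteDimensional ℚ F] {q g : ℕ} {I : Type} [Fintype I]
    (S : SP q g F I) (hq : 0 < q) {k : ℕ} (w : Fin k → F) (hw : ∀ a, ∃ y, w a = S.z y ∨ w a = (q : F) / S.z y)
    (M : ℕ) (hM : 0 < M) (c1 c2 : F) (h1 : c1 ∈ Submonoid.closure {u : F | u ≠ 0 → ∀ x, S.e x u ^ 2 = 1}) (h10 : c1 ≠ 0)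
    (h2 : c2 ∈ Submonoid.closure {u : F | u ≠ 0 → ∀ x, S.e x u ^ 2 = 1}) (hrel : (∏ a, w a) ^ M * c1 = c2) (x : I) :
    (Finset.univ.filter fun a => w a = S.z x).card = (Finset.univ.filter fun a => w a = (q : F) / S.z x).card := by
  have hq0 : (q : F) ≠ 0 := by
    have : CharZero F := algebraRat.charZero F
    exact_mod_cast hq.ne'
  have hw0 : ∀ a, w a ≠ 0 := by
    intro a
    obtain ⟨y, h | h⟩ := hw a
    · rw [h]; exact S.ne y
    · rw [h]; exact div_ne_zero hq0 (S.ne y)
  let E : F →* F :=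
    { toFun := fun u => S.e x u ^ 2
      map_one' := by rw [S.e_one x, one_pow]
      map_mul' := by intro u v; rw [S.e_mul x, mul_pow] }
  have hE : ∀ u, E u = S.e x u ^ 2 := fun u => rfl
  have hc20 : c2 ≠ 0 := by
    rw [← hrel]
    exact mul_ne_zero (pow_ne_zero _ (Finset.prod_ne_zero_iff.mpr fun a _ => hw0 a)) h10
  have hE1 : E c1 = 1 := by rw [hE]; exact S.e_closure' c1 h1 h10 x
  have hE2 : E c2 = 1 := by rw [hE]; exact S.e_closure' c2 h2 hc20 x
  have hP : (∏ a, E (w a)) ^ M = 1 := by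
    have h := congrArg E hrel
    rw [map_mul, map_pow, map_prod, hE1, hE2, mul_one] at h
    exact h
  have hEq : E (q : F) = 1 := by rw [hE, S.e_q hq x, one_pow]
  have hEz0 : ∀ y, E ((q : F) / S.z y) * E (S.z y) = 1 := by
    intro y
    rw [← map_mul, div_mul_cancel₀ _ (S.ne y), hEq]
  have hEinv : ∀ y, E ((q : F) / S.z y) = (E (S.z y))⁻¹ := fun y => eq_inv_of_mul_eq_one_left (hEz0 y)
  have hA0 : E (S.z x) ≠ 0 := right_ne_zero_of_mul_eq_one (hEz0 x)
  have hEa : ∀ a, E (w a) = (if w a = S.z x then E (S.z x) else 1) *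
      (if w a = (q : F) / S.z x then (E (S.z x))⁻¹ else 1) := by
    intro a
    obtain ⟨y, h | h⟩ := hw a
    · by_cases hxy : x = y
      · subst hxy
        rw [h, if_pos rfl, if_neg (S.z_inj hq x x).2, mul_one]
      · have n1 : ¬ (S.z y = S.z x) := fun hh => hxy ((S.z_inj hq x y).1 hh.symm)
        rw [h, if_neg n1, if_neg (S.z_inj hq y x).2, mul_one, hE]
        exact S.e_other hq x y hxy
    · by_cases hxy : x = y
      · subst hxy
        rw [h, if_neg (fun hh => (S.z_inj hq x x).2 hh.symm), if_pos rfl, one_mul, hEinv]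
      · have n1 : ¬ ((q : F) / S.z y = S.z x) := fun hh => (S.z_inj hq x y).2 hh.symm
        have n2 : ¬ ((q : F) / S.z y = (q : F) / S.z x) := by
          intro hh
          apply hxy
          apply (S.z_inj hq x y).1
          rw [div_eq_div_iff (S.ne y) (S.ne x)] at hh
          exact mul_left_cancel₀ hq0 hh
        rw [h, if_neg n1, if_neg n2, mul_one, hEinv, hE, S.e_other hq x y hxy, inv_one]
  have hprod : (∏ a, E (w a)) = E (S.z x) ^ (Finset.univ.filter fun a => w a = S.z x).card *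
      ((E (S.z x))⁻¹) ^ (Finset.univ.filter fun a => w a = (q : F) / S.z x).card := by
    rw [Finset.prod_congr rfl (fun a _ => hEa a), Finset.prod_mul_distrib, Finset.prod_ite, Finset.prod_ite,
      Finset.prod_const, Finset.prod_const, Finset.prod_const, Finset.prod_const, one_pow, one_pow, mul_one, mul_one]
  rw [hprod] at hP
  have key : ∀ N : ℕ, 0 < N → E (S.z x) ^ N ≠ 1 := by
    intro N hN h
    obtain ⟨n, hn, hen⟩ := S.e_self hq x
    apply S.tor x (2 * n * N) (by positivity)
    rw [hE, hen, ← pow_mul, div_pow, div_eq_one_iff_eq (pow_ne_zero _ (pow_ne_zero _ hq0)), ← pow_mul, ← pow_mul] at h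
    have e1 : 2 * (2 * n * N) = 2 * n * (2 * N) := by ring
    have e2 : 2 * n * N = n * (2 * N) := by ring
    rw [e1, e2]
    exact h
  generalize (Finset.univ.filter fun a => w a = S.z x).card = n1 at hP ⊢
  generalize (Finset.univ.filter fun a => w a = (q : F) / S.z x).card = n2 at hP ⊢
  generalize E (S.z x) = A at hP hA0 key
  have hAA : (A ^ n1) ^ M = (A ^ n2) ^ M := by
    rw [mul_pow, inv_pow, inv_pow] at hP
    exact (mul_inv_eq_one₀ (pow_ne_zero _ (pow_ne_zero _ hA0))).mp hP
  by_contra hne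
  rcases Nat.lt_or_gt_of_ne hne with hlt | hlt
  · obtain ⟨d, rfl⟩ := Nat.exists_eq_add_of_lt hlt
    apply key ((d + 1) * M) (by positivity)
    have h1' : (A ^ n1) ^ M * 1 = (A ^ n1) ^ M * A ^ ((d + 1) * M) := by
      rw [mul_one, pow_mul, ← mul_pow, ← pow_add, ← add_assoc, ← hAA]
    exact (mul_left_cancel₀ (pow_ne_zero _ (pow_ne_zero _ hA0)) h1').symm
  · obtain ⟨d, rfl⟩ := Nat.exists_eq_add_of_lt hlt
    apply key ((d + 1) * M) (by positivity)
    have h1' : (A ^ n2) ^ M * 1 = (A ^ n2) ^ M * A ^ ((d + 1) * M) := by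
      rw [mul_one, pow_mul, ← mul_pow, ← pow_add, ← add_assoc, hAA]
    exact (mul_left_cancel₀ (pow_ne_zero _ (pow_ne_zero _ hA0)) h1').symm

end TK
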