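import Pool.Agent.Lib.MP_021685_agTK.KL
import Pool.Agent.Lib.MP_021685_agTK.KN
import Pool.Agent.Lib.MP_021685_agTK.KT

/-! T-DISJ+: the signed permutations of the eigenvalues (copy of KP; every `z y` is an eigenvalue). -/

namespace TK

open Polynomial TI

private theorem L3_quad {F : Type*} [Field F] {x z t : F} {q : F} (hz : z ^ 2 - x * z + q = 0)
    (hz0 : z ≠ 0) (ht : t ^ 2 - x * t + q = 0) : t = z ∨ t = q / z := by
  have h1 : (t - z) * (t * z - q) = 0 := by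
    linear_combination z * ht - t * hz
  rcases mul_eq_zero.mp h1 with h2 | h2
  · exact Or.inl (sub_eq_zero.mp h2)
  · right
    rw [eq_div_iff hz0]
    exact sub_eq_zero.mp h2

private theorem L3_trace {F : Type*} [Field F] {x z : F} {q : F} (hz : z ^ 2 - x * z + q = 0)
    (hz0 : z ≠ 0) : x = z + q / z := by
  field_simp
  linear_combination (-1 : F) * hz

/-- As `exists_sp`, and every `z y` is a root of `X ^ 2 - x X + q` for a root `x` of one of the `h i`. -/
theorem exists_sp' {q g r : ℕ} (hq : 0 < q) (h : Fin r → ℤ[X]) (hm : ∀ i, (h i).Monic)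
    (hg : ∀ i, (h i).natDegree = g) (hi : ∀ i, Irreducible (h i)) (l : Fin r → ℕ) (hl : ∀ i, (l i).Prime)
    (hlg : ∀ i, 2 * g + 1 < l i) (hlq : ∀ i, ¬ l i ∣ q) (h1 : ∀ i, (l i : ℤ) ∣ resq q (h i))
    (h2 : ∀ i, ¬ (l i : ℤ) ^ 2 ∣ resq q (h i))
    (hsep : ∀ i j, ((h j).map (Int.castRingHom (ZMod (l i)))).Separable)
    (hj : ∀ i j, j ≠ i → ¬ (l i : ℤ) ∣ resq q (h j)) (K : IntermediateField ℚ ℂ) [FiniteDimensional ℚ K]
    [Normal ℚ K] (hK : ∀ (i : Fin r) (x z : ℂ), aeval x (h i) = 0 → z ^ 2 - x * z + (q : ℂ) = 0 → z ∈ K) :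
    ∃ (I : Type) (_ : Fintype I) (S : SP q g K I), (∀ (i : Fin r) (x z : K), aeval x (h i) = 0 →
      z ^ 2 - x * z + (q : K) = 0 → ∃ y : I, z = S.z y ∨ z = (q : K) / S.z y) ∧
        ∀ y : I, ∃ (i : Fin r) (x : K), aeval x (h i) = 0 ∧ S.z y ^ 2 - x * S.z y + (q : K) = 0 := by
  classical
  have hinj : Function.Injective (algebraMap K ℂ) := (algebraMap K ℂ).injective
  have hqK : (q : K) ≠ 0 := by
    intro h0
    have h3 : algebraMap K ℂ (q : K) = 0 := by rw [h0, map_zero]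
    rw [map_natCast] at h3
    exact hq.ne' (Nat.cast_eq_zero.mp h3)
  let I : Type := {x : K // ∃ j, aeval x (h j) = 0}
  have hfin : Finite I := by
    have h3 : (⋃ j, (h j).rootSet K).Finite :=
      Set.finite_iUnion fun j => (h j).rootSet_finite K
    refine Set.Finite.subset h3 ?_
    rintro x ⟨j, hx⟩
    refine Set.mem_iUnion.mpr ⟨j, ?_⟩
    exact Polynomial.mem_rootSet'.mpr ⟨((hm j).map _).ne_zero, hx⟩
  have hex : ∀ x : I, ∃ z : K, z ^ 2 - x.1 * z + (q : K) = 0 := by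
    rintro ⟨x, j, hx⟩
    obtain ⟨s, hs⟩ := IsAlgClosed.exists_eq_mul_self ((x : ℂ) ^ 2 - 4 * (q : ℂ))
    have hz : (((x : ℂ) + s) / 2) ^ 2 - (x : ℂ) * (((x : ℂ) + s) / 2) + (q : ℂ) = 0 := by
      linear_combination (-1 / 4 : ℂ) * hs
    have hxC : aeval (x : ℂ) (h j) = 0 := by
      change aeval (algebraMap K ℂ x) (h j) = 0
      rw [aeval_algebraMap_apply, hx, map_zero]
    refine ⟨⟨((x : ℂ) + s) / 2, hK j _ _ hxC hz⟩, ?_⟩
    apply hinj
    rw [map_add, map_sub, map_mul, map_pow, map_natCast, map_zero]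
    exact hz
  choose z hz using hex
  have hz0 : ∀ x, z x ≠ 0 := by
    intro x h0
    have h3 := hz x
    rw [h0] at h3
    apply hqK
    linear_combination h3
  choose jj hjj using fun x : I => x.2
  have hinjz : ∀ x y : I, y ≠ x → z y ≠ z x ∧ z y ≠ (q : K) / z x := by
    intro x y hxy
    constructor
    · intro h3
      apply hxy
      apply Subtype.ext
      rw [L3_trace (hz y) (hz0 y), L3_trace (hz x) (hz0 x), h3]
    · intro h3
      apply hxy
      apply Subtype.ext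
      rw [L3_trace (hz y) (hz0 y), L3_trace (hz x) (hz0 x), h3, div_div_cancel₀ hqK, add_comm]
  have hs : ∀ x : I, ∃ s : K ≃ₐ[ℚ] K, s (z x) = (q : K) / z x ∧
      ∀ (j : Fin r) (x' z' : K), aeval x' (h j) = 0 → z' ^ 2 - x' * z' + (q : K) = 0 → z' ≠ z x →
        z' ≠ (q : K) / z x → s z' = z' := fun x =>
    flip hq h hm hg hi (jj x) (l (jj x)) (hl _) (hlg _) (hlq _) (h1 _) (h2 _) (hsep _) (hj _)
      (z x) x.1 (hjj x) (hz x)
  choose s hs1 hs2 using hs
  have hroot : ∀ (γ : K ≃ₐ[ℚ] K) (x y : I), γ x.1 = y.1 → γ (z x) = z y ∨ γ (z x) = (q : K) / z y := by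
    intro γ x y hxy
    apply L3_quad (hz y) (hz0 y)
    have h3 : γ (z x ^ 2 - x.1 * z x + (q : K)) = 0 := by rw [hz x, map_zero]
    rw [map_add, map_sub, map_mul, map_pow, map_natCast, hxy] at h3
    exact h3
  have haev : ∀ (γ : K ≃ₐ[ℚ] K) (x : K) (j : Fin r), aeval x (h j) = 0 → aeval (γ x) (h j) = 0 := by
    intro γ x j hx
    have h3 := Polynomial.aeval_algHom_apply (γ.toAlgHom.restrictScalars ℤ) x (h j)
    rw [hx, map_zero] at h3
    exact h3
  refine ⟨I, Fintype.ofFinite I,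
    { z := z
      ne := hz0
      s := s
      s1 := hs1
      s2 := fun x y hxy => hs2 x (jj y) y.1 (z y) (hjj y) (hz y) (hinjz x y hxy).1 (hinjz x y hxy).2
      perm := fun γ x => ⟨⟨γ x.1, jj x, haev γ x.1 (jj x) (hjj x)⟩, hroot γ x _ rfl⟩
      tor := ?_
      big := ?_ }, ?_⟩
  · intro x n hn h3
    have h4 : (algebraMap K ℂ (z x)) ^ (2 * n) = (q : ℂ) ^ n := by
      rw [← map_pow, h3, map_pow, map_natCast]
    have h5 : aeval (algebraMap K ℂ x.1) (h (jj x)) = 0 := by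
      rw [aeval_algebraMap_apply, hjj x, map_zero]
    have h6 : (algebraMap K ℂ (z x)) ^ 2 - algebraMap K ℂ x.1 * algebraMap K ℂ (z x) + (q : ℂ) = 0 := by
      have h7 := congrArg (algebraMap K ℂ) (hz x)
      rw [map_add, map_sub, map_mul, map_pow, map_natCast, map_zero] at h7
      exact h7
    exact not_tor hq h hm hg hi (jj x) (l (jj x)) (hl _) (hlg _) (hlq _) (h1 _) (h2 _) (hsep _)
      (hj _) _ _ h5 h6 n hn h4
  · intro x
    obtain ⟨O', hO1, hO2⟩ := card_root (h (jj x)) (hm _) (hi _) x.1 (hjj x)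
    let φ : {y // y ∈ O'} → I := fun y => ⟨y.1, jj x, hO2 y.1 y.2⟩
    have hφ : Function.Injective φ := by
      intro a b hab
      apply Subtype.ext
      have h3 : (φ a).1 = (φ b).1 := by rw [hab]
      exact h3
    refine ⟨O'.attach.image φ, ?_, ?_⟩
    · rw [Finset.card_image_of_injective _ hφ, Finset.card_attach, hO1, hg]
    · intro y hy
      obtain ⟨y', _, rfl⟩ := Finset.mem_image.mp hy
      obtain ⟨γ, hγ⟩ := conj_root (h (jj x)) (hm _) (hi _) x.1 y'.1 (hjj x) (hO2 y'.1 y'.2)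
      exact ⟨γ, hroot γ x _ hγ⟩
  · refine ⟨fun i x z' hx hz' => ⟨⟨x, i, hx⟩, L3_quad (hz ⟨x, i, hx⟩) (hz0 _) hz'⟩, fun y => ?_⟩
    exact ⟨jj y, y.1, hjj y, hz y⟩

end TK
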